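import Pool.Agent.R414.CN.G

/-!
# A Jacobian of even order: `y ^ 11 = x (8 - x) ^ 2` over the field with 199 elements

For `p = 11`, `k = 2`, `a = 8`, `l = 199` all the conditions of the question hold: `l ≡ 1 (mod p)`,
`l` does not divide the even number `a`, and `a` is not a `p`-th power modulo `l`; but the order of
`J^{a,1,k}(𝔽_l)` is even.

The group `J(𝔽_l)` is the group of the divisor classes of degree zero of the function field
`F = 𝔽_l(x)(y)`.  The curve has exactly one point at infinity and it is rational (this is part of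
the statement), so that `J(𝔽_l)` is the class group of the ring of the functions without poles
outside that point, the integral closure of `𝔽_l[x]` in `F`; its order is the class number
`FunctionField.classNumber` of Mathlib.

Proof: with `w = y ^ 6 / (8 - x)` one has `w ^ 3 + y ^ 7 = 8 y w`.  For an explicit function `h` with
a pole of order `10` at infinity the ideal `(h)` is the square of an ideal, which is not principal,
as no function has a single pole of order `5` at infinity.
-/

set_option autoImplicit false

open Polynomial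

namespace Pool.Agent.Results.MP_08d8ea_nt.EvenOrder

/-- `F` is the function field over `𝔽_l` of the curve `y ^ p = x (a - x) ^ k`: it is generated over
the field `𝔽_l(x)` of rational functions by an element `y` with `y ^ p = x (a - x) ^ k`. -/
def IsFunctionFieldOf (p k l : ℕ) (a : ℤ) [Fact l.Prime] (F : Type) [Field F]
    [Algebra (ZMod l)[X] F] [Algebra (RatFunc (ZMod l)) F] : Prop :=
  ∃ y : F, y ^ p = algebraMap (ZMod l)[X] F (X * (C (a : ZMod l) - X) ^ k) ∧
    IntermediateField.adjoin (RatFunc (ZMod l)) {y} = ⊤

/-- The smooth projective curve with function field `F` has exactly one point at infinity, and this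
point is rational: there is exactly one valuation ring `V` of `F` that contains the constants but
not `x`, and the residue field of `V` consists of the classes of the constants. -/
def OneRationalPointAtInfinity (l : ℕ) [Fact l.Prime] (F : Type) [Field F]
    [Algebra (ZMod l)[X] F] : Prop :=
  ∃ V : ValuationSubring F,
    (∀ V' : ValuationSubring F, ((∀ c : ZMod l, algebraMap (ZMod l)[X] F (C c) ∈ V') ∧
      algebraMap (ZMod l)[X] F X ∉ V') ↔ V' = V) ∧
    ∀ g ∈ V, ∃ c : ZMod l, g - algebraMap (ZMod l)[X] F (C c) ∈ V.nonunits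

/-- The order of `J^{a,1,k}(𝔽_l)` is even for `p = 11`, `k = 2`, `a = 8`, `l = 199`. -/
theorem result : ∃ (p k l : ℕ) (a : ℤ) (_ : Fact l.Prime),
    (p = 11 ∧ k = 2 ∧ l = 199 ∧ a = 8) ∧
    -- the conditions of the question
    p.Prime ∧ 5 < p ∧ Even a ∧ (∀ b : ℕ, 2 ≤ b → ¬ (b : ℤ) ^ p ∣ a) ∧
    2 ≤ k ∧ k ≤ p - 3 ∧ k ≠ (p - 1) / 2 ∧
    l ≡ 1 [MOD p] ∧ ¬ (l : ℤ) ∣ a ∧ (∀ b : ZMod l, b ^ p ≠ a) ∧
    -- the function field of the curve, its point at infinity, and the order of the class group
    ∃ (F : Type) (_ : Field F) (_ : Algebra (ZMod l)[X] F) (_ : Algebra (RatFunc (ZMod l)) F)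
      (_ : IsScalarTower (ZMod l)[X] (RatFunc (ZMod l)) F) (_ : FunctionField (ZMod l) F)
      (_ : Algebra.IsSeparable (RatFunc (ZMod l)) F),
      IsFunctionFieldOf p k l a F ∧ OneRationalPointAtInfinity l F ∧
        Even (FunctionField.classNumber (ZMod l) F) := by
  refine ⟨11, 2, 199, 8, Pool.Agent.R414.CN.fact199, ⟨rfl, rfl, rfl, rfl⟩, by norm_num, by norm_num,
    by decide, ?_, by norm_num, by norm_num, by norm_num, by decide, by norm_num, ?_,
    Pool.Agent.R414.CN.FF, inferInstance, inferInstance, inferInstance, inferInstance,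
    Pool.Agent.R414.CN.finF, Pool.Agent.R414.CN.sepF, ?_, ?_,
    Pool.Agent.R414.CN.even_classNumber⟩
  · intro b hb h
    have h1 := Int.le_of_dvd (by norm_num) h
    have h2 : (2 : ℤ) ^ 11 ≤ (b : ℤ) ^ 11 := by gcongr; exact_mod_cast hb
    norm_num at h2
    omega
  · have key : ∀ b : ZMod 199, b ^ 11 ≠ 8 := by decide +kernel
    intro b
    have := key b
    push_cast
    exact this
  · refine ⟨Pool.Agent.R414.CN.y, ?_, ?_⟩
    · rw [Pool.Agent.R414.CN.y_pow, Pool.Agent.R414.CN.fX]
      push_cast
      rfl
    · rw [eq_top_iff]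
      intro g _
      obtain ⟨c, hc⟩ := Pool.Agent.R414.CN.decomp g
      rw [hc]
      refine sum_mem fun i _ => mul_mem ?_ (pow_mem ?_ i)
      · exact IntermediateField.algebraMap_mem _ _
      · exact IntermediateField.subset_adjoin _ _ rfl
  · obtain ⟨V, hV⟩ := Pool.Agent.R414.CN.exists_inf
    refine ⟨V, ?_, fun g hg => Pool.Agent.R414.CN.residue hV hg⟩
    intro V'
    constructor
    · intro h
      exact Pool.Agent.R414.CN.unique_inf h hV
    · rintro rfl
      exact hV

end Pool.Agent.Results.MP_08d8ea_nt.EvenOrder
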